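import Mathlib

namespace Pool.Agent.Results.MP_130e73_co.NotDense

open Finset Filter Topology SimpleGraph

/-- `S` is a dominating set of `G`. -/
def Dominating {n : ℕ} (G : SimpleGraph (Fin n)) (S : Finset (Fin n)) : Prop :=
  ∀ v, v ∉ S → ∃ u ∈ S, G.Adj v u

open Classical in
/-- The number of dominating sets with exactly `i` elements. -/
noncomputable def domCount {n : ℕ} (G : SimpleGraph (Fin n)) (i : ℕ) : ℕ :=
  ((univ.powersetCard i).filter (Dominating G)).card

/-- The value at `x` of the domination polynomial. -/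
noncomputable def domPoly {n : ℕ} (G : SimpleGraph (Fin n)) (x : ℝ) : ℝ :=
  ∑ i ∈ Icc 1 n, (domCount G i : ℝ) * x ^ i

def wt (x : ℝ) (c : Bool) : ℝ := if c then x else 1

def val (x : ℝ) (g : Bool → Bool → ℝ) : Bool → Bool → List Bool → ℝ
  | a, b, [] => g a b
  | a, b, c :: l => if a || b || c then wt x c * val x g b c l else 0

def T (x : ℝ) (g : Bool → Bool → ℝ) (n : ℕ) (a b : Bool) : ℝ :=
  ∑ f : Fin n → Bool, val x g a b (List.ofFn f)

lemma sum_cons (n : ℕ) (φ : List Bool → ℝ) : ∑ f : Fin (n + 1) → Bool, φ (List.ofFn f) =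
    ∑ c : Bool, ∑ f : Fin n → Bool, φ (c :: List.ofFn f) := by
  rw [← (Fin.consEquiv fun _ => Bool).sum_comp, Fintype.sum_prod_type]
  simp [Fin.consEquiv, List.ofFn_succ]

lemma T_zero (x g a b) : T x g 0 a b = g a b := by simp [T, val]

lemma T_succ (x g n a b) : T x g (n + 1) a b =
    x * T x g n b true + if a || b then T x g n b false else 0 := by
  unfold T
  rw [sum_cons n (val x g a b)]
  cases a <;> cases b <;> simp [val, wt, mul_sum]

lemma T_rec (x g n a b) : T x g (n + 4) a b =
    x * (T x g (n + 3) a b + T x g (n + 2) a b + T x g (n + 1) a b) := by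
  cases a <;> cases b <;> simp only [T_succ, Bool.or_true, Bool.or_false, Bool.false_eq_true,
    if_true, if_false] <;> ring

def win (w : List Bool) (i : ℕ) : Prop :=
  w.getD i false = true ∨ w.getD (i + 1) false = true ∨ w.getD (i + 2) false = true

open Classical in
lemma val_eq (x g) : ∀ (l : List Bool) (a b : Bool), val x g a b l =
    if ∀ i < l.length, win (a :: b :: l) i then
      x ^ l.count true * g ((a :: b :: l).getD l.length false)
        ((a :: b :: l).getD (l.length + 1) false) else 0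
  | [], a, b => by simp [val]
  | c :: l, a, b => by
    have e : (∀ i < (c :: l).length, win (a :: b :: c :: l) i) ↔
        (a || b || c) = true ∧ ∀ i < l.length, win (b :: c :: l) i := by
      rw [List.length_cons, Nat.forall_lt_succ_left]
      refine and_congr (by simp [win, or_assoc]) Iff.rfl
    rw [val, val_eq x g l b c]
    by_cases h1 : (a || b || c) = true
    · by_cases h2 : ∀ i < l.length, win (b :: c :: l) i
      · rw [if_pos h1, if_pos h2, if_pos (e.2 ⟨h1, h2⟩)]
        cases c <;> simp [wt, pow_succ] <;> ring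
      · rw [if_pos h1, if_neg h2, if_neg fun h => h2 (e.1 h).2, mul_zero]
    · rw [if_neg h1, if_neg fun h => h1 (e.1 h).1]

lemma count_ofFn : ∀ (n : ℕ) (f : Fin n → Bool),
    (List.ofFn f).count true = (univ.filter fun i => f i = true).card
  | 0, f => by simp
  | n + 1, f => by
    rw [List.ofFn_succ, List.count_cons, count_ofFn n, Fin.card_filter_univ_succ']
    cases f 0 <;> simp [add_comm]

open Classical in
lemma domPoly_eq {n : ℕ} (hn : 0 < n) (G : SimpleGraph (Fin n)) (x : ℝ) : domPoly G x =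
    ∑ f : Fin n → Bool, if Dominating G (univ.filter fun i => f i = true) then
      x ^ (List.ofFn f).count true else 0 := by
  have e1 : ∑ S ∈ (univ : Finset (Finset (Fin n))).filter (Dominating G), x ^ S.card
      = domPoly G x := by
    rw [← sum_fiberwise_of_maps_to (g := Finset.card) (t := Icc 1 n)]
    · refine sum_congr rfl fun i _ => ?_
      rw [sum_congr rfl (g := fun _ => x ^ i) fun S hS => by rw [(mem_filter.1 hS).2], sum_const,
        nsmul_eq_mul, domCount]
      congr 3
      ext S; simp [and_comm]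
    · intro S hS
      rw [mem_Icc]
      refine ⟨card_pos.2 ?_, by simpa using card_le_univ S⟩
      by_cases h : (⟨0, hn⟩ : Fin n) ∈ S
      · exact ⟨_, h⟩
      · obtain ⟨u, hu, -⟩ := (mem_filter.1 hS).2 _ h
        exact ⟨u, hu⟩
  rw [← e1, sum_filter]
  symm
  refine Fintype.sum_bijective (fun f : Fin n → Bool => univ.filter fun i => f i = true) ?_ _ _
    fun f => by rw [count_ofFn]
  rw [Fintype.bijective_iff_injective_and_card]
  refine ⟨fun f g h => funext fun i => ?_, by simp⟩
  have := congrArg (i ∈ ·) h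
  simpa using this

lemma getD_ofFn {n : ℕ} (f : Fin n → Bool) (i : ℕ) :
    (List.ofFn f).getD i false = true ↔ ∃ h : i < n, f ⟨i, h⟩ = true := by
  by_cases h : i < n
  · simp [List.getD_eq_getElem?_getD, h]
  · simp [List.getD_eq_getElem?_getD, h]

lemma dom_iff {n : ℕ} (G : SimpleGraph (Fin n)) (f : Fin n → Bool) (r : ℕ → ℕ → Prop)
    (hr : ∀ u v : Fin n, G.Adj u v ↔ r u v) :
    Dominating G (univ.filter fun i => f i = true) ↔ ∀ v < n,
      (List.ofFn f).getD v false = true ∨ ∃ u, (List.ofFn f).getD u false = true ∧ r v u := by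
  simp only [Dominating, mem_filter, mem_univ, true_and, getD_ofFn, hr]
  constructor
  · intro h v hv
    by_cases h1 : f ⟨v, hv⟩ = true
    · exact Or.inl ⟨hv, h1⟩
    · obtain ⟨u, hu, hu2⟩ := h _ h1
      exact Or.inr ⟨u, ⟨u.2, hu⟩, hu2⟩
  · intro h v hv
    rcases h v v.2 with ⟨_, h1⟩ | ⟨u, ⟨hu, h1⟩, h2⟩
    · exact absurd h1 hv
    · exact ⟨⟨u, hu⟩, h1, h2⟩

def gP (a b : Bool) : ℝ := if a || b then 1 else 0
def gC (a b y z : Bool) : ℝ := if (y || z || a) && (z || a || b) then 1 else 0

lemma path_eq (n : ℕ) (hn : 0 < n) (x : ℝ) : domPoly (pathGraph n) x = T x gP n true false := by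
  rw [domPoly_eq hn, T]
  refine sum_congr rfl fun f _ => ?_
  rw [val_eq, dom_iff _ f (fun u v => u + 1 = v ∨ v + 1 = u) fun u v => pathGraph_adj]
  generalize hl : List.ofFn f = l
  have len : l.length = n := by rw [← hl]; simp
  have hF : l.getD n false = false := by simp [List.getD_eq_getElem?_getD, len]
  have e : (∀ v < n, l.getD v false = true ∨
      ∃ u, l.getD u false = true ∧ (v + 1 = u ∨ u + 1 = v)) ↔
      ∀ v < n, win (true :: false :: l) (v + 1) := by
    refine forall₂_congr fun v _ => ?_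
    rcases v with _ | v
    · simp [win]
    · simp only [win, List.getD_cons_succ]
      constructor
      · rintro (h | ⟨u, h, rfl | h2⟩)
        · exact Or.inr (Or.inl h)
        · exact Or.inr (Or.inr h)
        · obtain rfl : u = v := by omega
          exact Or.inl h
      · rintro (h | h | h)
        · exact Or.inr ⟨_, h, Or.inr rfl⟩
        · exact Or.inl h
        · exact Or.inr ⟨_, h, Or.inl rfl⟩
  have e2 : (∀ v < n, win (true :: false :: l) (v + 1)) ↔ (∀ i < n, win (true :: false :: l) i) ∧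
      win (true :: false :: l) n := by
    rw [← Nat.forall_lt_succ_right, Nat.forall_lt_succ_left]
    simp [win]
  have e3 : win (true :: false :: l) n ↔ ((true :: false :: l).getD n false ||
      (true :: false :: l).getD (n + 1) false) = true := by
    simp only [win, List.getD_cons_succ, hF]; simp
  rw [e, e2, e3, len, gP]
  by_cases h1 : ∀ i < n, win (true :: false :: l) i
  · by_cases h2 : ((true :: false :: l).getD n false ||
      (true :: false :: l).getD (n + 1) false) = true
    · rw [if_pos ⟨h1, h2⟩, if_pos h1, if_pos h2, mul_one]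
    · rw [if_neg fun h => h2 h.2, if_pos h1, if_neg h2, mul_zero]
  · rw [if_neg fun h => h1 h.1, if_neg h1]

lemma cyc_adj (m : ℕ) (u v : Fin (m + 3)) : (cycleGraph (m + 3)).Adj u v ↔
    (u.val + 1 = v.val ∨ v.val + 1 = u.val ∨ (u.val = 0 ∧ v.val = m + 2) ∨
      (v.val = 0 ∧ u.val = m + 2)) := by
  rw [cycleGraph_adj']
  have := u.2
  have := v.2
  rcases lt_trichotomy u v with h | h | h
  · rw [Fin.coe_sub_iff_lt.2 h, Fin.coe_sub_iff_le.2 h.le]
    have : u.val < v.val := h
    omega
  · subst h; simp only [sub_self, Fin.val_zero]; omega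
  · rw [Fin.coe_sub_iff_lt.2 h, Fin.coe_sub_iff_le.2 h.le]
    have : v.val < u.val := h
    omega

lemma cyc_eq (m : ℕ) (x : ℝ) : domPoly (cycleGraph (m + 3)) x =
    ∑ a : Bool, ∑ b : Bool, wt x a * wt x b * T x (gC a b) (m + 1) a b := by
  classical
  let P : List Bool → Prop := fun l => ∀ v < m + 3, l.getD v false = true ∨
    ∃ u, l.getD u false = true ∧ (v + 1 = u ∨ u + 1 = v ∨ (v = 0 ∧ u = m + 2) ∨ (u = 0 ∧ v = m + 2))
  have e0 : domPoly (cycleGraph (m + 3)) x = ∑ f : Fin (m + 3) → Bool,
      (fun l => if P l then x ^ l.count true else 0) (List.ofFn f) := by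
    rw [domPoly_eq (by omega)]
    refine sum_congr rfl fun f _ => ?_
    rw [dom_iff _ f (fun v u => v + 1 = u ∨ u + 1 = v ∨ (v = 0 ∧ u = m + 2) ∨ (u = 0 ∧ v = m + 2))
      (cyc_adj m)]
    simp only [P]
    congr
  rw [e0, sum_cons (m + 2) fun l => if P l then x ^ l.count true else 0]
  refine sum_congr rfl fun a _ => ?_
  rw [sum_cons (m + 1) fun l => if P (a :: l) then x ^ (a :: l).count true else 0]
  refine sum_congr rfl fun b _ => ?_
  rw [T, mul_sum]
  refine sum_congr rfl fun f _ => ?_
  rw [val_eq]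
  generalize hl : List.ofFn f = l
  have len : l.length = m + 1 := by rw [← hl]; simp
  rw [len]
  set w := a :: b :: l with hw
  have w0 : w.getD 0 false = a := rfl
  have w1 : w.getD 1 false = b := rfl
  have e : P w ↔ (∀ i < m + 1, win w i) ∧ ((w.getD (m + 1) false || w.getD (m + 1 + 1) false || a) &&
      (w.getD (m + 1 + 1) false || a || b)) = true := by
    simp only [P, win, Bool.and_eq_true, Bool.or_eq_true, ← w0, ← w1]
    generalize (fun i => w.getD i false) = F at *
    constructor
    · intro h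
      refine ⟨fun i hi => ?_, ?_, ?_⟩
      · rcases h (i + 1) (by omega) with h | ⟨u, h, rfl | h2 | h2 | h2⟩
        · exact Or.inr (Or.inl h)
        · exact Or.inr (Or.inr h)
        · obtain rfl : u = i := by omega
          exact Or.inl h
        · omega
        · omega
      · rcases h (m + 2) (by omega) with h | ⟨u, h, rfl | h2 | h2 | ⟨rfl, -⟩⟩
        · exact Or.inl (Or.inr h)
        · exfalso
          simp [List.getD_eq_getElem?_getD, hw, len] at h
        · obtain rfl : u = m + 1 := by omega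
          exact Or.inl (Or.inl h)
        · omega
        · exact Or.inr h
      · rcases h 0 (by omega) with h | ⟨u, h, rfl | h2 | ⟨-, rfl⟩ | h2⟩
        · exact Or.inl (Or.inr h)
        · exact Or.inr h
        · omega
        · exact Or.inl (Or.inl h)
        · omega
    · rintro ⟨h1, h2, h3⟩ v hv
      rcases Nat.eq_zero_or_pos v with rfl | hv0
      · rcases h3 with (h | h) | h
        · exact Or.inr ⟨_, h, by omega⟩
        · exact Or.inl h
        · exact Or.inr ⟨_, h, by omega⟩
      by_cases hv1 : v = m + 2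
      · subst hv1
        rcases h2 with (h | h) | h
        · exact Or.inr ⟨_, h, by omega⟩
        · exact Or.inl h
        · exact Or.inr ⟨_, h, by omega⟩
      obtain ⟨i, rfl⟩ : ∃ i, v = i + 1 := ⟨v - 1, by omega⟩
      rcases h1 i (by omega) with h | h | h
      · exact Or.inr ⟨_, h, by omega⟩
      · exact Or.inl h
      · exact Or.inr ⟨_, h, by omega⟩
  have cnt : x ^ w.count true = wt x a * wt x b * x ^ l.count true := by
    rw [hw]; cases a <;> cases b <;> simp [wt, pow_succ] <;> ring
  rw [cnt, gC]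
  by_cases h1 : ∀ i < m + 1, win w i
  · rw [if_pos h1]
    by_cases h2 : ((w.getD (m + 1) false || w.getD (m + 1 + 1) false || a) &&
      (w.getD (m + 1 + 1) false || a || b)) = true
    · rw [if_pos h2, if_pos (e.2 ⟨h1, h2⟩), mul_one]
    · rw [if_neg h2, if_neg fun h => h2 (e.1 h).2]; simp
  · rw [if_neg h1, if_neg fun h => h1 (e.1 h).1, mul_zero]

def Box (p q : ℝ) : Prop := 7 / 5 * p ^ 2 < -(p * q) ∧ -(p * q) < 17 / 10 * p ^ 2

lemma box_step {x p q r : ℝ} (h1 : -2 < x) (h2 : x < -397 / 200) (a : Box p q) (b : Box q r) :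
    Box r (x * (r + q + p)) := by
  have p0 : p ≠ 0 := by rintro rfl; simp [Box] at a
  have q0 : q ≠ 0 := by rintro rfl; simp [Box] at b
  obtain ⟨s, rfl⟩ : ∃ s, q = -s * p := ⟨-q / p, by field_simp⟩
  have s0 : s ≠ 0 := by rintro rfl; simp at q0
  obtain ⟨t, rfl⟩ : ∃ t, r = s * t * p := ⟨r / (s * p), by field_simp⟩
  have pp : 0 < p ^ 2 := by positivity
  have sp : 0 < (s * p) ^ 2 := by positivity
  have s1 : 7 / 5 < s := by have := a.1; by_contra h; nlinarith
  have s2 : s < 17 / 10 := by have := a.2; by_contra h; nlinarith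
  have t1 : 7 / 5 < t := by have := b.1; by_contra h; nlinarith
  have t2 : t < 17 / 10 := by have := b.2; by_contra h; nlinarith
  have k : 0 < s * t * p ^ 2 := by positivity
  have c0 : 0 < s * t - s + 1 := by nlinarith
  have c1 : 7 / 5 * (s * t) < -x * (s * t - s + 1) := by nlinarith
  have c2 : -x * (s * t - s + 1) < 17 / 10 * (s * t) := by nlinarith
  constructor
  · have := mul_lt_mul_of_pos_right c1 k; nlinarith
  · have := mul_lt_mul_of_pos_right c2 k; nlinarith

lemma free (u : ℕ → ℝ → ℝ) (hc : ∀ n < 3, Continuous (u n))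
    (hr : ∀ n x, u (n + 3) x = x * (u (n + 2) x + u (n + 1) x + u n x)) (N : ℕ)
    (h1 : ∀ n < N, u n (-199 / 100) ≠ 0) (h2 : Box (u N (-199 / 100)) (u (N + 1) (-199 / 100)))
    (h3 : Box (u (N + 1) (-199 / 100)) (u (N + 2) (-199 / 100))) :
    ∀ᶠ x in 𝓝 (-199 / 100 : ℝ), ∀ n, u n x ≠ 0 := by
  have hc' : ∀ n, Continuous (u n) := by
    intro n
    induction n using Nat.strong_induction_on with
    | _ n ih =>
      by_cases h : n < 3
      · exact hc n h
      · obtain ⟨k, rfl⟩ : ∃ k, n = k + 3 := ⟨n - 3, by omega⟩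
        have : u (k + 3) = fun x => x * (u (k + 2) x + u (k + 1) x + u k x) := funext (hr k)
        rw [this]
        have := ih (k + 2) (by omega)
        have := ih (k + 1) (by omega)
        have := ih k (by omega)
        fun_prop
  have bx : ∀ i j, Box (u i (-199 / 100)) (u j (-199 / 100)) →
      ∀ᶠ x in 𝓝 (-199 / 100 : ℝ), Box (u i x) (u j x) := by
    intro i j h
    have := hc' i
    have := hc' j
    refine Eventually.and ?_ ?_
    · exact ContinuousAt.eventually_lt (f := fun x => 7 / 5 * u i x ^ 2)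
        (g := fun x => -(u i x * u j x)) (by fun_prop) (by fun_prop) h.1
    · exact ContinuousAt.eventually_lt (f := fun x => -(u i x * u j x))
        (g := fun x => 17 / 10 * u i x ^ 2) (by fun_prop) (by fun_prop) h.2
  have e1 : ∀ᶠ x in 𝓝 (-199 / 100 : ℝ), ∀ n ∈ range N, u n x ≠ 0 :=
    (eventually_all_finset _).2 fun n hn => (hc' n).continuousAt.eventually_ne (h1 n (mem_range.1 hn))
  filter_upwards [e1, bx _ _ h2, bx _ _ h3, lt_mem_nhds (show (-2 : ℝ) < -199 / 100 by norm_num),
    gt_mem_nhds (show (-199 / 100 : ℝ) < -397 / 200 by norm_num)] with x a b c d e n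
  have ind : ∀ k, Box (u (N + k) x) (u (N + k + 1) x) ∧ Box (u (N + k + 1) x) (u (N + k + 2) x) := by
    intro k
    induction k with
    | zero => exact ⟨b, c⟩
    | succ k ih =>
      refine ⟨ih.2, ?_⟩
      have := box_step d e ih.1 ih.2
      rw [← hr] at this
      exact this
  by_cases h : n < N
  · exact a n (mem_range.2 h)
  · obtain ⟨k, rfl⟩ : ∃ k, n = N + k := ⟨n - N, by omega⟩
    intro h0
    have := (ind k).1
    simp [Box, h0] at this

noncomputable def uP (n : ℕ) (x : ℝ) : ℝ := T x gP (n + 1) true false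
noncomputable def uC (n : ℕ) (x : ℝ) : ℝ :=
  ∑ a : Bool, ∑ b : Bool, wt x a * wt x b * T x (gC a b) (n + 1) a b

lemma uP0 (x) : uP 0 x = x := by simp [uP, T_succ, T_zero, gP]
lemma uP1 (x) : uP 1 x = x ^ 2 + 2 * x := by simp [uP, T_succ, T_zero, gP]; ring
lemma uP2 (x) : uP 2 x = x ^ 3 + 3 * x ^ 2 + x := by simp [uP, T_succ, T_zero, gP]; ring
lemma uPr (n x) : uP (n + 3) x = x * (uP (n + 2) x + uP (n + 1) x + uP n x) := T_rec _ _ _ _ _
lemma uC0 (x) : uC 0 x = x ^ 3 + 3 * x ^ 2 + 3 * x := by simp [uC, T_succ, T_zero, gC, wt]; ring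
lemma uC1 (x) : uC 1 x = x ^ 4 + 4 * x ^ 3 + 6 * x ^ 2 := by
  simp [uC, T_succ, T_zero, gC, wt]; ring
lemma uC2 (x) : uC 2 x = x ^ 5 + 5 * x ^ 4 + 10 * x ^ 3 + 5 * x ^ 2 := by
  simp [uC, T_succ, T_zero, gC, wt]; ring
lemma uCr (n x) : uC (n + 3) x = x * (uC (n + 2) x + uC (n + 1) x + uC n x) := by
  simp only [uC, T_rec, Fintype.sum_bool]; ring

def it (x : ℚ) : ℕ → ℚ × ℚ × ℚ → ℚ
  | 0, s => s.1
  | n + 1, s => it x n (s.2.1, s.2.2, x * (s.2.2 + s.2.1 + s.1))

lemma it_eq (u : ℕ → ℝ) (x : ℚ) (hr : ∀ n, u (n + 3) = x * (u (n + 2) + u (n + 1) + u n)) :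
    ∀ (n k : ℕ) (s : ℚ × ℚ × ℚ), u k = s.1 → u (k + 1) = s.2.1 → u (k + 2) = s.2.2 →
      u (k + n) = it x n s
  | 0, _, _, h, _, _ => h
  | n + 1, k, s, h0, h1, h2 => by
    rw [it, show k + (n + 1) = k + 1 + n by omega]
    refine it_eq u x hr n (k + 1) _ h1 h2 ?_
    rw [show k + 1 + 2 = k + 3 by omega, hr, h0, h1, h2]; push_cast; ring

def sP : ℚ × ℚ × ℚ := (-199 / 100, -199 / 10000, 2009701 / 1000000)
def sC : ℚ × ℚ × ℚ := (-1970299 / 1000000, 792059601 / 100000000, -118014900499 / 10000000000)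

lemma vP (n : ℕ) : uP n (-199 / 100) = it (-199 / 100) n sP := by
  have := it_eq (fun n => uP n (-199 / 100)) (-199 / 100) (fun n => by rw [uPr]; push_cast; ring)
    n 0 sP (by rw [uP0, sP]; norm_num) (by rw [zero_add, uP1, sP]; norm_num)
    (by rw [zero_add, uP2, sP]; norm_num)
  simpa using this

lemma vC (n : ℕ) : uC n (-199 / 100) = it (-199 / 100) n sC := by
  have := it_eq (fun n => uC n (-199 / 100)) (-199 / 100) (fun n => by rw [uCr]; push_cast; ring)
    n 0 sC (by rw [uC0, sC]; norm_num) (by rw [zero_add, uC1, sC]; norm_num)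
    (by rw [zero_add, uC2, sC]; norm_num)
  simpa using this

lemma box_cast (p q : ℚ) (h : 7 / 5 * p ^ 2 < -(p * q) ∧ -(p * q) < 17 / 10 * p ^ 2) :
    Box p q := by
  have h1 := (Rat.cast_lt (K := ℝ)).2 h.1
  have h2 := (Rat.cast_lt (K := ℝ)).2 h.2
  push_cast at h1 h2
  exact ⟨h1, h2⟩

theorem result : ∃ a b : ℝ, -2 ≤ a ∧ a < b ∧ b ≤ 0 ∧ ∀ n : ℕ, 4 ≤ n → ∀ r ∈ Set.Icc a b,
    domPoly (pathGraph n) r ≠ 0 ∧ domPoly (cycleGraph n) r ≠ 0 := by
  have fP := free uP (fun n hn => by
      interval_cases n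
      · rw [funext uP0]; fun_prop
      · rw [funext uP1]; fun_prop
      · rw [funext uP2]; fun_prop) uPr 15
    (fun n hn => by
      rw [vP]
      have : ∀ n < 15, it (-199 / 100) n sP ≠ 0 := by decide +kernel
      exact_mod_cast this n hn)
    (by rw [vP, vP]; exact box_cast _ _ (by decide +kernel))
    (by rw [vP, vP]; exact box_cast _ _ (by decide +kernel))
  have fC := free uC (fun n hn => by
      interval_cases n
      · rw [funext uC0]; fun_prop
      · rw [funext uC1]; fun_prop
      · rw [funext uC2]; fun_prop) uCr 8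
    (fun n hn => by
      rw [vC]
      have : ∀ n < 8, it (-199 / 100) n sC ≠ 0 := by decide +kernel
      exact_mod_cast this n hn)
    (by rw [vC, vC]; exact box_cast _ _ (by decide +kernel))
    (by rw [vC, vC]; exact box_cast _ _ (by decide +kernel))
  obtain ⟨ε, hε, H⟩ := Metric.eventually_nhds_iff.1 (fP.and fC)
  have m1 := min_le_left ε (1 / 100)
  have m2 := min_le_right ε (1 / 100)
  have m0 : 0 < min ε (1 / 100) := lt_min hε (by norm_num)
  refine ⟨-199 / 100, -199 / 100 + min ε (1 / 100) / 2, by norm_num, by linarith, by linarith,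
    fun n hn r hr => ?_⟩
  have := H (y := r) (by rw [Real.dist_eq, abs_lt]; constructor <;> linarith [hr.1, hr.2])
  obtain ⟨m, rfl⟩ : ∃ m, n = m + 3 := ⟨n - 3, by omega⟩
  rw [path_eq _ (by omega), cyc_eq]
  exact ⟨this.1 (m + 2), this.2 m⟩

end Pool.Agent.Results.MP_130e73_co.NotDense
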